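import Pool.Agent.H.MP_a6fba8_lc.A

namespace Pool.Agent.Results.MP_a6fba8_lc.NotModular

open Pool.Agent.H.MP_a6fba8_lc

theorem result : ∃ (L₁ L₂ : FirstOrder.Language.{0, 0}) (R₁ : Set (Rule L₁)) (R₂ : Set (Rule L₂)),
    Good R₁ ∧ Good R₂ ∧ UN R₁ ∧ UN R₂ ∧ ¬ UN (union R₁ R₂) :=
  ⟨L1, L2, R1, R2, good1, good2, un1, un2, not_un3⟩

end Pool.Agent.Results.MP_a6fba8_lc.NotModular
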